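import Pool.Agent.H68.GHY.Targets

/-!
Row OCD of the board ghy_modules: the eigenvalue of the operator.
-/

set_option autoImplicit false

namespace Pool.Agent.H80.GHY

open MeasureTheory Pool.Agent.H34.GM Pool.Agent.H34.GZ Pool.Agent.H34.GU Pool.Agent.H34.GA
open Pool.Agent.H68.GHY

theorem det_cR {m : ℕ} (α : ZM m) : (cR α).det = ((α.det : ℤ) : ℝ) := by
  have h := RingHom.map_det (Int.castRingHom ℝ) α
  have h2 : (Int.castRingHom ℝ).mapMatrix α = cR α := rfl
  rw [h2] at h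
  exact h.symm

open Classical in
/-- **the eigenvalue of the operator** -/
theorem pf_OCD (hUNF : Pool.Agent.H68.GHY.T_UNF) (hHCP : T_HCP) (hCGB : T_CGB) (hKCD : T_KCD)
    (hBIA : T_BIA) (hRRA : T_RRA) : T_OCD := by
  intro m N _ T D hS F lam hF χ hχ y a d x0 hy ha hd0 hd1 hx0 g x hg
  obtain ⟨C, -, hC⟩ := hBIA m χ hS.one_le hχ
  have hΦ : Tg m (bi m χ d) := (hC d hd0 hd1).1.toTg
  have hG := hRRA m N T D hS F lam hF (bi m χ d) hΦ
  have hcg := hCGB m y a hS.one_le (by linarith) ha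
  have hdet : ∀ z ∈ D, (mt z).det ≠ 0 := by
    intro z hz h0
    have h1 := (hS.dom.shell z hz).1
    have h2 := hS.one_le
    unfold aN at h1
    rw [h0, abs_zero, Real.zero_rpow (by positivity)] at h1
    norm_num at h1
  have hu : ∀ u γ : ZM m, IsUnit u → (u * γ).det.natAbs = γ.det.natAbs := by
    intro u γ hu
    have h1 : IsUnit u.det := (Matrix.isUnit_iff_isUnit_det u).mp hu
    rw [Matrix.det_mul, Int.natAbs_mul, Int.isUnit_iff_natAbs_eq.mp h1, one_mul]
  have hu0 : ∀ u γ : ZM m, IsUnit u → ((u * γ).det ≠ 0 ↔ γ.det ≠ 0) := by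
    intro u γ hu'
    rw [← Int.natAbs_ne_zero, hu u γ hu', Int.natAbs_ne_zero]
  -- the kernel as a sum
  have h1 : ∫ z in D, ∑ w : VN m N, Kc (bi m χ d) a d x0 g x (mt z) w * F (mt z) w ∂(hm m) =
      ∫ z in D, ∑' γ : ZM m, (if γ.det ≠ 0 ∧ wd x0 d γ.det.natAbs then cg a γ else 0) *
        (bi m χ d (kk (aN (cR γ)) (mt z) (cR γ) g) * F (mt z) (ac N γ x)) ∂(hm m) := by
    refine setIntegral_congr_fun hS.dom.meas fun z hz => ?_
    exact ((hKCD m N χ hS.one_le hS.two_le hχ y a d x0 hy ha hd0 hd1 hx0).2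
      (fun w => F (mt z) w) (fun w hw => hF.supp _ w hw) g (mt z) x hg (hdet z hz)).symm
  have h2 := hUNF m N T D hS F lam hF (bi m χ d) hΦ
    (fun γ : ZM m => if γ.det ≠ 0 ∧ wd x0 d γ.det.natAbs then cg a γ else 0) (y ^ 2)
    (by
      intro u γ hu' hγ
      simp only [hu u γ hu', hu0 u γ hu', (hcg γ hγ).2.1 u hu'])
    (by
      intro γ hγ
      by_cases hc : γ.det ≠ 0 ∧ wd x0 d γ.det.natAbs
      · simp only [if_pos hc] at hγ
        exact ⟨hc.1, ((hcg γ hc.1).2.2 hγ).2⟩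
      · simp only [if_neg hc] at hγ
        exact absurd rfl hγ)
    g x hg
  rw [h1, h2]
  unfold Bs
  rw [Finset.sum_mul]
  refine Finset.sum_congr rfl fun n hn => ?_
  have hn1 : 1 ≤ n := (Finset.mem_Icc.mp hn).1
  have h3 : ∀ ρ ∈ T n, (if ρ.det ≠ 0 ∧ wd x0 d ρ.det.natAbs then cg a ρ else 0) =
      if wd x0 d n then cg a ρ else 0 := by
    intro ρ hρ
    have h4 := hS.reps.mem n hn1 ρ hρ
    have h5 : ρ.det ≠ 0 := by
      intro h0
      rw [h0, Int.natAbs_zero] at h4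
      omega
    rw [h4]
    simp only [h5, ne_eq, not_false_eq_true, true_and]
  have h6 : ∑ ρ ∈ T n, (if ρ.det ≠ 0 ∧ wd x0 d ρ.det.natAbs then cg a ρ else 0) *
      Rr (bi m χ d) 1 F (cR ρ * g) (ac N ρ x) = ∑ ρ ∈ T n, (if wd x0 d n then cg a ρ else 0) *
      Rr (bi m χ d) 1 F (cR ρ * g) (ac N ρ x) :=
    Finset.sum_congr rfl fun ρ hρ => by rw [h3 ρ hρ]
  rw [h6]
  by_cases hw : wd x0 d n
  · simp only [if_pos hw]
    have h7 := hHCP m N T hS.one_le hS.two_le hS.reps (fun g x => Rr (bi m χ d) 1 F g x)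
      hG.auto a n hn1 g x hg
    rw [h7]
    unfold bq
    rw [Finset.sum_mul]
    refine Finset.sum_congr rfl fun p hp => ?_
    have hpn := Nat.mem_divisorsAntidiagonal.mp hp
    have hp1 : 1 ≤ p.1 := by
      rcases Nat.eq_zero_or_pos p.1 with h | h
      · rw [h, zero_mul] at hpn
        exact absurd hpn.1.symm hpn.2
      · exact h
    have hp2 : 1 ≤ p.2 := by
      rcases Nat.eq_zero_or_pos p.2 with h | h
      · rw [h, mul_zero] at hpn
        exact absurd hpn.1.symm hpn.2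
      · exact h
    have h8 : ∀ α ∈ T p.1, ∑ β ∈ T p.2, Rr (bi m χ d) 1 F (cR β * (cR α * g))
        (ac N β (ac N α x)) = (p.2 : ℂ) ^ (((m : ℂ) - 1) / 2) * lam p.2 *
          Rr (bi m χ d) 1 F (cR α * g) (ac N α x) := by
      intro α hα
      refine hG.hecke p.2 hp2 (cR α * g) (ac N α x) ?_
      rw [Matrix.det_mul, det_cR]
      have h9 := hS.reps.mem p.1 hp1 α hα
      have h10 : α.det ≠ 0 := by
        intro h0
        rw [h0, Int.natAbs_zero] at h9
        omega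
      exact mul_ne_zero (by exact_mod_cast h10) hg
    rw [Finset.sum_congr rfl h8, ← Finset.mul_sum, hG.hecke p.1 hp1 g x hg]
    unfold tl
    ring
  · simp only [if_neg hw, zero_mul, Finset.sum_const_zero]

end Pool.Agent.H80.GHY
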